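import Pool.Agent.ETU.KMn2
import Pool.Agent.ETI.Prm
import Pool.Agent.ETI.DgU

/-!
# Definitions (vanishing for almost all `c`)

`Nic p P`: the roots of `P` in the `p`-adic numbers are units, and simple modulo `p`. `Prm p f`: the conditions on the primes.
-/

open scoped BigOperators Polynomial
open Polynomial

namespace Pool.Agent.ETV

open Pool.Agent.ETU
open Pool.Agent.ETI (Bd)

/-- the roots of `P` in the field of `p`-adic numbers are units and simple modulo `p` -/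
def Nic (p : ℕ) [Fact p.Prime] (P : ℚ[X]) : Prop :=
  (∀ i, ‖((P.coeff i : ℚ) : PadicAlgCl p)‖ ≤ 1) ∧ ∀ α : PadicAlgCl p, aeval α P = 0 →
    ‖α‖ = 1 ∧ ‖aeval α (derivative P)‖ = 1

/-- the conditions on the primes -/
structure Prm (p : ℕ) [Fact p.Prime] {r : ℕ} (f : Fin r → ℤ[X]) : Prop where
  fam : Fam p f
  big : ∑ i, (f i).natDegree + 5 < p
  nic : ∀ P : ℚ[X], P.Monic → Irreducible P → ¬ P ∣ X →
    ((∃ j, P ∣ (f j).map (Int.castRingHom ℚ)) ∨
      (P.natDegree ≤ Bd f ∧ ∃ b : Fin r → ℤ, b ≠ 0 ∧ Rel f b P)) → Nic p P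

end Pool.Agent.ETV
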