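import Pool.Agent.ETV.Defs

/-!
# MODULE ETV-Emb : the polynomial over `ℚ` below `P`, and embeddings

`P₀` is the minimal polynomial over `ℚ` of the root `θ` of `P` in `AdjoinRoot P`.
-/

open scoped BigOperators Polynomial
open Polynomial

namespace Pool.Agent.ETV

open Pool.Agent.ETU

/-- existence, for an extension `K` of `k` generated by a root `θ` of `P` -/
private theorem etvEmb_aux {k K : Type} [Field k] [CharZero k] [Field K] [CharZero K]
    [FiniteDimensional ℚ k] [Algebra k K] [FiniteDimensional k K] {P : k[X]} {θ : K}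
    (hm : ∀ Q : k[X], aeval θ Q = 0 ↔ P ∣ Q) :
    ∃ P₀ : ℚ[X], P₀.Monic ∧ Irreducible P₀ ∧ P ∣ P₀.map (algebraMap ℚ k) ∧
      (∀ Q : ℚ[X], P ∣ Q.map (algebraMap ℚ k) → P₀ ∣ Q) ∧
      ∀ (p : ℕ) [Fact p.Prime] (α : PadicAlgCl p), aeval α P₀ = 0 →
        ∃ τ : k →+* PadicAlgCl p, P.eval₂ τ α = 0 := by
  have hint : ∀ x : K, IsIntegral ℚ x := by
    intro x
    have : Algebra.IsIntegral ℚ k := inferInstance
    have hx : IsIntegral k x := Algebra.IsIntegral.isIntegral x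
    exact isIntegral_trans x hx
  have hae : ∀ Q : ℚ[X], aeval θ (Q.map (algebraMap ℚ k)) = aeval θ Q := fun Q =>
    aeval_map_algebraMap k θ Q
  refine ⟨minpoly ℚ θ, minpoly.monic (hint θ), minpoly.irreducible (hint θ), ?_, ?_, ?_⟩
  · rw [← hm, hae]
    exact minpoly.aeval ℚ θ
  · intro Q hQ
    rw [← hm, hae] at hQ
    exact minpoly.dvd ℚ θ hQ
  · intro p _ α hα
    obtain ⟨φ, hφ⟩ := IntermediateField.exists_algHom_of_splits_of_aeval (F := ℚ) (E := K)
      (K := PadicAlgCl p) (fun s => ⟨hint s, IsAlgClosed.splits _⟩) (x := θ) (y := α) hα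
    refine ⟨(φ : K →+* PadicAlgCl p).comp (algebraMap k K), ?_⟩
    have h0 : aeval θ P = 0 := (hm P).2 dvd_rfl
    have h1 : (φ : K →+* PadicAlgCl p) (aeval θ P) =
        P.eval₂ ((φ : K →+* PadicAlgCl p).comp (algebraMap k K)) ((φ : K →+* PadicAlgCl p) θ) := by
      rw [aeval_def, hom_eval₂]
    rw [h0, map_zero] at h1
    have h2 : (φ : K →+* PadicAlgCl p) θ = α := hφ
    rw [h2] at h1
    exact h1.symm

theorem exists_min {k : Type} [Field k] [CharZero k] [FiniteDimensional ℚ k] {P : k[X]}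
    (hP : P.Monic) (hP' : Irreducible P) :
    ∃ P₀ : ℚ[X], P₀.Monic ∧ Irreducible P₀ ∧ P ∣ P₀.map (algebraMap ℚ k) ∧
      (∀ Q : ℚ[X], P ∣ Q.map (algebraMap ℚ k) → P₀ ∣ Q) ∧
      ∀ (p : ℕ) [Fact p.Prime] (α : PadicAlgCl p), aeval α P₀ = 0 →
        ∃ τ : k →+* PadicAlgCl p, P.eval₂ τ α = 0 := by
  have : Fact (Irreducible P) := ⟨hP'⟩
  have : CharZero (AdjoinRoot P) := charZero_of_injective_algebraMap
    (algebraMap k (AdjoinRoot P)).injective
  have : FiniteDimensional k (AdjoinRoot P) := hP.finite_adjoinRoot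
  refine etvEmb_aux (K := AdjoinRoot P) (θ := AdjoinRoot.root P) fun Q => ?_
  rw [AdjoinRoot.aeval_eq, AdjoinRoot.mk_eq_zero]

private theorem etvEmb_map {k : Type} [Field k] [CharZero k] (F : ℤ[X]) :
    F.map (Int.castRingHom k) = (F.map (Int.castRingHom ℚ)).map (algebraMap ℚ k) := by
  rw [Polynomial.map_map]
  congr 1
  exact RingHom.ext_int _ _

/-- the relations and the divisibilities descend to `P₀` -/
theorem rel_min {k : Type} [Field k] [CharZero k] {P : k[X]} {P₀ : ℚ[X]}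
    (h : ∀ Q : ℚ[X], P ∣ Q.map (algebraMap ℚ k) → P₀ ∣ Q) {r : ℕ} {f : Fin r → ℤ[X]} :
    (∀ a : Fin r → ℤ, RelK f a P → Rel f a P₀) ∧
      (∀ j, P ∣ (f j).map (Int.castRingHom k) → P₀ ∣ (f j).map (Int.castRingHom ℚ)) := by
  refine ⟨?_, ?_⟩
  · rintro a ⟨n, hn, hd⟩
    refine ⟨n, hn, h _ ?_⟩
    rw [← etvEmb_map]
    exact hd
  · intro j hj
    refine h _ ?_
    rw [← etvEmb_map]
    exact hj

end Pool.Agent.ETV
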