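import Pool.Agent.ETU.Stm98

/-! # Definitions for the statement of EveryTuple -/

namespace Pool.Agent.ETV

open Polynomial

/-- The element `x` of `K` has at most one zero: two discrete valuation rings of `K` which contain
the rational numbers, and whose maximal ideals contain `x`, are equal. -/
def OneZero {K : Type} [Field K] [CharZero K] (x : K) : Prop :=
  ∀ O O' : ValuationSubring K, IsDiscreteValuationRing O → IsDiscreteValuationRing O' →
    (∀ q : ℚ, (q : K) ∈ O) → (∀ q : ℚ, (q : K) ∈ O') → O.valuation x < 1 →
    O'.valuation x < 1 → O = O'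

/-- The integers `f_1(0), …, f_r(0)` are not zero and multiplicatively independent: a product of
powers of them is `1` or `-1` only if all exponents are `0`. -/
def IndepAtZero {r : ℕ} (f : Fin r → ℤ[X]) : Prop :=
  (∀ i, (f i).eval 0 ≠ 0) ∧
    ∀ a : Fin r → ℤ, |∏ i, (((f i).eval 0 : ℤ) : ℚ) ^ a i| = 1 → a = 0

end Pool.Agent.ETV
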