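import Pool.Agent.ETU.KDef
import Pool.Agent.ETV.Stm

/-!
# ETV-Ind : no relation at `0` if the `f i (0)` are multiplicatively independent
-/

open scoped BigOperators Polynomial
open Polynomial

namespace Pool.Agent.ETV

open Pool.Agent.ETU

private theorem etvind_zero {k : Type} [Field k] (G : ℤ[X])
    (h : (X : k[X]) ∣ G.map (Int.castRingHom k)) : ((G.eval 0 : ℤ) : k) = 0 := by
  rw [X_dvd_iff, coeff_map, coeff_zero_eq_eval_zero] at h
  exact h

theorem ind_rel {k : Type} [Field k] [CharZero k] {r : ℕ} {f : Fin r → ℤ[X]}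
    (hf : IndepAtZero f) : (∀ a : Fin r → ℤ, Prim a → ¬ RelK f a (X : k[X])) ∧
      ∀ j, ¬ (X : k[X]) ∣ (f j).map (Int.castRingHom k) := by
  obtain ⟨h1, h2⟩ := hf
  refine ⟨fun a ha hrel => ?_, fun j hj => ?_⟩
  · obtain ⟨n, hn, hd⟩ := hrel
    have h3 := etvind_zero _ hd
    rw [eval_sub, eval_pow, eval_pow, Int.cast_eq_zero, sub_eq_zero] at h3
    have h4 : ∀ b : Fin r → ℤ, (((Ap f b).eval 0 : ℤ) : ℚ) =
        ∏ i, (((f i).eval 0 : ℤ) : ℚ) ^ (b i).toNat := by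
      intro b
      unfold Ap
      rw [eval_prod]
      push_cast
      refine Finset.prod_congr rfl fun i _ => ?_
      rw [eval_pow]
      push_cast
      rfl
    have h5 : ∏ i, (((f i).eval 0 : ℤ) : ℚ) ^ a i =
        (((Ap f a).eval 0 : ℤ) : ℚ) / (((Ap f (-a)).eval 0 : ℤ) : ℚ) := by
      rw [h4, h4, ← Finset.prod_div_distrib]
      refine Finset.prod_congr rfl fun i _ => ?_
      have h6 : (((f i).eval 0 : ℤ) : ℚ) ≠ 0 := by exact_mod_cast h1 i
      have h7 : a i = ((a i).toNat : ℤ) - (((-a) i).toNat : ℤ) := by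
        rw [Pi.neg_apply]
        omega
      conv_lhs => rw [h7]
      rw [zpow_sub₀ h6, zpow_natCast, zpow_natCast]
    have h6 : (((Ap f (-a)).eval 0 : ℤ) : ℚ) ≠ 0 := by
      rw [h4]
      exact Finset.prod_ne_zero_iff.2 fun i _ => pow_ne_zero _ (by exact_mod_cast h1 i)
    have h7 : (∏ i, (((f i).eval 0 : ℤ) : ℚ) ^ a i) ^ n = 1 := by
      rw [h5, div_pow, div_eq_one_iff_eq (pow_ne_zero _ h6)]
      exact_mod_cast h3
    have h8 : |∏ i, (((f i).eval 0 : ℤ) : ℚ) ^ a i| = 1 := by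
      have h9 : |∏ i, (((f i).eval 0 : ℤ) : ℚ) ^ a i| ^ n = 1 := by rw [← abs_pow, h7, abs_one]
      exact (pow_eq_one_iff_of_nonneg (abs_nonneg _) hn.ne').1 h9
    have h9 := h2 a h8
    obtain ⟨i, hi⟩ := ha 2 Nat.prime_two
    rw [h9] at hi
    exact hi (dvd_zero _)
  · have h3 := etvind_zero _ hj
    exact h1 j (by exact_mod_cast h3)

end Pool.Agent.ETV
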