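import Pool.Agent.ETV.Defs

/-!
# MODULE ETV-Lrg : all large primes satisfy `Prm`

From `Pool.Agent.ETI.exists_prm` with `g = 0` (`a : Fin 1 → ℤ` anything, `c = 1`): the coprimality conditions are trivial and its fields
`fam`, `big`, `nice` give the fields here, for the `P` which do not divide `X ^ 2 - κ X + 1`; take `κ = 0` and `κ = 1` (no irreducible
`P` divides both `X ^ 2 + 1` and `X ^ 2 - X + 1`, whose difference is `X`, unless `P ∣ X`).
-/

open scoped BigOperators Polynomial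
open Polynomial

namespace Pool.Agent.ETV

open Pool.Agent.ETU
open Pool.Agent.ETI (Bd Dq)

theorem exists_prm {r : ℕ} {f : Fin r → ℤ[X]} (hm : ∀ i, (f i).Monic)
    (hpos : ∀ i, 0 < (f i).natDegree)
    (hsq : Squarefree ((∏ i, f i).map (Int.castRingHom ℚ))) :
    ∃ C : ℕ, ∀ (p : ℕ) [Fact p.Prime], C < p → Prm p f := by
  have hinj : Function.Injective (fun _ : Fin (0 + 1) => (0 : ℤ)) := fun i j _ => by
    ext
    omega
  obtain ⟨C0, h0⟩ := Pool.Agent.ETI.exists_prm hinj 0 hm hpos hsq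
  obtain ⟨C1, h1⟩ := Pool.Agent.ETI.exists_prm hinj 1 hm hpos hsq
  refine ⟨max C0 C1, fun p _ hp => ?_⟩
  have H0 := h0 p 1 ((le_max_left _ _).trans_lt hp) (Nat.coprime_one_left _)
    (Nat.coprime_one_left _)
  have H1 := h1 p 1 ((le_max_right _ _).trans_lt hp) (Nat.coprime_one_left _)
    (Nat.coprime_one_left _)
  refine ⟨H0.fam, H0.big, fun P hP hP' hPX hr => ?_⟩
  by_cases hD : P ∣ (Dq 0).map (Int.castRingHom ℚ)
  · have hD1 : ¬ P ∣ (Dq 1).map (Int.castRingHom ℚ) := by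
      intro h
      apply hPX
      have h2 := dvd_sub hD h
      have h3 : (Dq 0).map (Int.castRingHom ℚ) - (Dq 1).map (Int.castRingHom ℚ) = X := by
        unfold Dq
        rw [← Polynomial.map_sub]
        have h4 : (X ^ 2 - C (0 : ℤ) * X + 1 - (X ^ 2 - C (1 : ℤ) * X + 1) : ℤ[X]) = X := by
          rw [C_0, C_1]
          ring
        rw [h4, map_X]
      rwa [h3] at h2
    obtain ⟨h2, h3⟩ := H1.nice P hP hP' hPX hD1 hr
    exact ⟨h2, fun α hα => ⟨(h3 α hα).1, (h3 α hα).2.2⟩⟩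
  · obtain ⟨h2, h3⟩ := H0.nice P hP hP' hPX hD hr
    exact ⟨h2, fun α hα => ⟨(h3 α hα).1, (h3 α hα).2.2⟩⟩

end Pool.Agent.ETV
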