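import Pool.Agent.ETV.Defs

/-!
# The pole of `x` is unique

`E = Y^m + ∑ e_b Y^b`, `d = deg e_0`, `m ∤ d`, `m deg e_b + b d < m d`. At a place `O` with `V = O.valuation x > 1` a polynomial `e ≠ 0` in `k[X]` has
`O.valuation (e(x)) = V ^ deg e` (constants are units), so `E(x, w) = 0` gives `O.valuation w ^ m = V ^ d`. Every element of `K` is
`∑ j < m, r_j w ^ j` with `r_j ∈ k(x)`, and `O.valuation (r_j w ^ j) ^ m = V ^ (m n_j + j d)` with different exponents, the same at all poles.
-/

open scoped BigOperators Polynomial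
open Polynomial

namespace Pool.Agent.ETV

open Pool.Agent.ETU Pool.Agent.CST

private theorem etvPol_alg {K : Type} [Field K] [CharZero K] {O : ValuationSubring K}
    (hO : IsPl O) {b : K} (hb : IsAlgebraic ℚ b) : b ∈ O := by
  obtain ⟨p, hp, hpb⟩ := hb.isIntegral
  have hφ : ∀ q : ℚ, algebraMap ℚ K q ∈ O.toSubring := fun q => hO.2 q
  have h1 : IsIntegral O b := by
    refine ⟨p.map ((algebraMap ℚ K).codRestrict O.toSubring hφ), hp.map _, ?_⟩
    rw [eval₂_map]
    exact hpb
  obtain ⟨y, hy⟩ := IsIntegrallyClosed.isIntegral_iff.1 h1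
  rw [← hy]
  exact y.2

private theorem etvPol_cst {k K : Type} [Field k] [CharZero k] [FiniteDimensional ℚ k] [Field K]
    [CharZero K] [Algebra k K] {O : ValuationSubring K} (hO : IsPl O) {b : k} (h0 : b ≠ 0) :
    O.valuation (algebraMap k K b) = 1 := by
  have hb : IsAlgebraic ℚ b := Algebra.IsAlgebraic.isAlgebraic b
  have hK : ∀ c : k, IsAlgebraic ℚ (algebraMap k K c) := by
    intro c
    have hc : IsAlgebraic ℚ c := Algebra.IsAlgebraic.isAlgebraic c
    exact hc.algebraMap
  have h1 : O.valuation (algebraMap k K b) ≤ 1 :=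
    (O.valuation_le_one_iff _).2 (etvPol_alg hO (hK b))
  have h2 : O.valuation (algebraMap k K b⁻¹) ≤ 1 :=
    (O.valuation_le_one_iff _).2 (etvPol_alg hO (hK b⁻¹))
  rw [map_inv₀, map_inv₀] at h2
  have h3 : O.valuation (algebraMap k K b) ≠ 0 :=
    (O.valuation.ne_zero_iff).2 ((_root_.map_ne_zero _).2 h0)
  exact le_antisymm h1 ((inv_le_one₀ (zero_lt_iff.2 h3)).1 h2)

/-- in a sum which is zero the maximum is not attained once -/
private theorem etvPol_dom {K : Type} [Field K] {O : ValuationSubring K} {ι : Type}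
    {s : Finset ι} {f : ι → K} {i : ι} (hi : i ∈ s) (h0 : O.valuation (f i) ≠ 0)
    (h : ∀ j ∈ s, j ≠ i → O.valuation (f j) < O.valuation (f i)) :
    O.valuation (∑ j ∈ s, f j) = O.valuation (f i) := by
  classical
  rw [← Finset.add_sum_erase s f hi]
  have h1 : O.valuation (∑ j ∈ s.erase i, f j) < O.valuation (f i) := by
    refine Valuation.map_sum_lt _ h0 fun j hj => ?_
    obtain ⟨h1, h2⟩ := Finset.mem_erase.1 hj
    exact h j h2 h1
  exact Valuation.map_add_eq_of_lt_left _ h1

private theorem etvPol_deg {k K : Type} [Field k] [CharZero k] [FiniteDimensional ℚ k] [Field K]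
    [CharZero K] [Algebra k K] {O : ValuationSubring K} (hO : IsPl O) {x : K}
    (hx : 1 < O.valuation x) {e : k[X]} (he : e ≠ 0) :
    O.valuation (aeval x e) = O.valuation x ^ e.natDegree := by
  have hx0 : O.valuation x ≠ 0 := (zero_lt_one.trans hx).ne'
  have hl : e.coeff e.natDegree ≠ 0 := leadingCoeff_ne_zero.2 he
  have h1 : O.valuation (e.coeff e.natDegree • x ^ e.natDegree) = O.valuation x ^ e.natDegree := by
    rw [Algebra.smul_def, map_mul, map_pow, etvPol_cst hO hl, one_mul]
  rw [aeval_eq_sum_range, ← h1]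
  refine etvPol_dom (Finset.mem_range.2 (Nat.lt_succ_self _)) ?_ fun j hj hjn => ?_
  · rw [h1]
    exact pow_ne_zero _ hx0
  · rw [h1]
    by_cases hc : e.coeff j = 0
    · rw [hc, zero_smul, map_zero]
      exact zero_lt_iff.2 (pow_ne_zero _ hx0)
    · rw [Algebra.smul_def, map_mul, map_pow, etvPol_cst hO hc, one_mul]
      have h2 : j < e.natDegree := by
        have := Finset.mem_range.1 hj
        omega
      exact pow_lt_pow_right₀ hx h2

private theorem etvPol_w {k K : Type} [Field k] [CharZero k] [FiniteDimensional ℚ k] [Field K]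
    [CharZero K] [Algebra k K] {x w : K} {E : k[X][X]} {m : ℕ} (hE : WtsK m E)
    (hEw : ev2K (algebraMap k K) x w E = 0) {O : ValuationSubring K} (hO : IsPl O)
    (hx : 1 < O.valuation x) :
    O.valuation w ^ m = O.valuation x ^ (E.coeff 0).natDegree := by
  have hx0 : O.valuation x ≠ 0 := (zero_lt_one.trans hx).ne'
  have hc0 : E.coeff 0 ≠ 0 := by
    intro h
    apply hE.zero
    rw [h, natDegree_zero]
    exact dvd_zero m
  set d := (E.coeff 0).natDegree with hd
  have hsum : ∑ b ∈ Finset.range (m + 1), aeval x (E.coeff b) * w ^ b = 0 := by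
    have h1 := hEw
    unfold ev2K at h1
    rw [coe_eval₂RingHom, eval₂_eq_sum_range, hE.deg] at h1
    exact h1
  have hf0 : O.valuation (aeval x (E.coeff 0) * w ^ 0) = O.valuation x ^ d := by
    rw [pow_zero, mul_one, etvPol_deg hO hx hc0]
  have hfm : O.valuation (aeval x (E.coeff m) * w ^ m) = O.valuation w ^ m := by
    have h1 : E.coeff m = 1 := by
      have := hE.mon.coeff_natDegree
      rwa [hE.deg] at this
    rw [h1, map_one, one_mul, map_pow]
  obtain ⟨A, hA⟩ : ∃ A, A = O.valuation x ^ d := ⟨_, rfl⟩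
  obtain ⟨B, hB⟩ : ∃ B, B = O.valuation w ^ m := ⟨_, rfl⟩
  have hA0 : 0 < A := by
    rw [hA]
    exact zero_lt_iff.2 (pow_ne_zero _ hx0)
  have hmid : ∀ b, 0 < b → b < m →
      O.valuation (aeval x (E.coeff b) * w ^ b) < max A B := by
    intro b hb hbm
    have hM0 : 0 < max A B := lt_of_lt_of_le hA0 (le_max_left _ _)
    by_cases hc : E.coeff b = 0
    · rw [hc, map_zero, zero_mul, map_zero]
      exact hM0
    · have h1 := hE.lt b hb hbm hc
      rw [← hd] at h1
      have h2 : O.valuation (aeval x (E.coeff b) * w ^ b) ^ m =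
          O.valuation x ^ (m * (E.coeff b).natDegree) * B ^ b := by
        rw [map_mul, map_pow, etvPol_deg hO hx hc, mul_pow, ← pow_mul, ← pow_mul, hB, ← pow_mul,
          mul_comm m b, mul_comm m (E.coeff b).natDegree]
      have h3 : O.valuation x ^ (m * (E.coeff b).natDegree) < A ^ (m - b) := by
        rw [hA, ← pow_mul]
        refine pow_lt_pow_right₀ hx ?_
        have h4 : d * (m - b) + b * d = m * d := by
          have h5 : m - b + b = m := Nat.sub_add_cancel hbm.le
          calc d * (m - b) + b * d = (m - b + b) * d := by ring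
            _ = m * d := by rw [h5]
        omega
      have h4 : O.valuation (aeval x (E.coeff b) * w ^ b) ^ m < max A B ^ m := by
        rw [h2]
        have h5 : max A B ^ m = max A B ^ (m - b) * max A B ^ b := by
          rw [← pow_add, Nat.sub_add_cancel hbm.le]
        rw [h5]
        have h6 : O.valuation x ^ (m * (E.coeff b).natDegree) < max A B ^ (m - b) :=
          h3.trans_le (pow_le_pow_left₀ hA0.le (le_max_left _ _) _)
        have h7 : B ^ b ≤ max A B ^ b := pow_le_pow_left₀ zero_le (le_max_right _ _) _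
        calc O.valuation x ^ (m * (E.coeff b).natDegree) * B ^ b
            ≤ O.valuation x ^ (m * (E.coeff b).natDegree) * max A B ^ b := mul_le_mul' le_rfl h7
          _ < max A B ^ (m - b) * max A B ^ b := mul_lt_mul_of_pos_right h6 (pow_pos hM0 b)
      exact lt_of_pow_lt_pow_left₀ m hM0.le h4
  have h0m : (0 : ℕ) ∈ Finset.range (m + 1) := Finset.mem_range.2 (Nat.succ_pos m)
  have hmm : m ∈ Finset.range (m + 1) := Finset.mem_range.2 (Nat.lt_succ_self m)
  rcases lt_trichotomy A B with h | h | h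
  · exfalso
    have h1 := etvPol_dom (O := O) (f := fun b => aeval x (E.coeff b) * w ^ b) hmm
      (by
        show O.valuation (aeval x (E.coeff m) * w ^ m) ≠ 0
        rw [hfm, ← hB]
        exact (hA0.trans h).ne')
      (by
        intro b hb hbm
        show O.valuation (aeval x (E.coeff b) * w ^ b) < O.valuation (aeval x (E.coeff m) * w ^ m)
        rw [hfm, ← hB]
        rcases Nat.eq_zero_or_pos b with h2 | h2
        · rw [h2, hf0, ← hA]
          exact h
        · have h3 := hmid b h2 (by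
            have := Finset.mem_range.1 hb
            omega)
          rwa [max_eq_right h.le] at h3)
    rw [hsum, map_zero] at h1
    have h2 : O.valuation (aeval x (E.coeff m) * w ^ m) = 0 := h1.symm
    rw [hfm, ← hB] at h2
    exact (hA0.trans h).ne' h2
  · rw [← hB, ← hA, h]
  · exfalso
    have h1 := etvPol_dom (O := O) (f := fun b => aeval x (E.coeff b) * w ^ b) h0m
      (by
        show O.valuation (aeval x (E.coeff 0) * w ^ 0) ≠ 0
        rw [hf0, ← hA]
        exact hA0.ne')
      (by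
        intro b hb hb0
        show O.valuation (aeval x (E.coeff b) * w ^ b) < O.valuation (aeval x (E.coeff 0) * w ^ 0)
        rw [hf0, ← hA]
        rcases eq_or_ne b m with h2 | h2
        · rw [h2, hfm, ← hB]
          exact h
        · have h3 := hmid b (Nat.pos_of_ne_zero hb0) (by
            have := Finset.mem_range.1 hb
            omega)
          rwa [max_eq_left h.le] at h3)
    rw [hsum, map_zero] at h1
    have h2 : O.valuation (aeval x (E.coeff 0) * w ^ 0) = 0 := h1.symm
    rw [hf0, ← hA] at h2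
    exact hA0.ne' h2

/-- `O.valuation t ^ m = O.valuation x ^ n` at all poles of `x` -/
private def EtvPolLd {K : Type} [Field K] [CharZero K] (x : K) (m : ℕ) (t : K) (n : ℤ) : Prop :=
  ∀ O : ValuationSubring K, IsPl O → 1 < O.valuation x → O.valuation t ^ m = O.valuation x ^ n

private theorem etvPol_mul {K : Type} [Field K] [CharZero K] {x : K} {m : ℕ} {t t' : K} {n n' : ℤ}
    (h : EtvPolLd x m t n) (h' : EtvPolLd x m t' n') : EtvPolLd x m (t * t') (n + n') := by
  intro O hO hx
  rw [map_mul, mul_pow, h O hO hx, h' O hO hx, zpow_add₀ (zero_lt_one.trans hx).ne']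

private theorem etvPol_inv {K : Type} [Field K] [CharZero K] {x : K} {m : ℕ} {t : K} {n : ℤ}
    (h : EtvPolLd x m t n) : EtvPolLd x m t⁻¹ (-n) := by
  intro O hO hx
  rw [map_inv₀, inv_pow, h O hO hx, zpow_neg]

private theorem etvPol_pow {K : Type} [Field K] [CharZero K] {x : K} {m : ℕ} {t : K} {n : ℤ}
    (h : EtvPolLd x m t n) (j : ℕ) : EtvPolLd x m (t ^ j) (j * n) := by
  intro O hO hx
  rw [map_pow, ← pow_mul, mul_comm j m, pow_mul, h O hO hx, mul_comm (j : ℤ) n, zpow_mul,
    zpow_natCast]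

private theorem etvPol_sum {K : Type} [Field K] [CharZero K] {x : K} {m : ℕ} {ι : Type}
    {s : Finset ι} {T : ι → K} {n : ι → ℤ} (hT : ∀ i ∈ s, T i ≠ 0 → EtvPolLd x m (T i) (n i))
    (hn : ∀ i ∈ s, ∀ j ∈ s, T i ≠ 0 → T j ≠ 0 → n i = n j → i = j) (hne : ∃ i ∈ s, T i ≠ 0) :
    ∃ i ∈ s, EtvPolLd x m (∑ i ∈ s, T i) (n i) := by
  classical
  obtain ⟨i0, hi0, hi0'⟩ := hne
  obtain ⟨i, hi, hmax⟩ := Finset.exists_max_image (s.filter fun i => T i ≠ 0) n
    ⟨i0, Finset.mem_filter.2 ⟨hi0, hi0'⟩⟩
  obtain ⟨his, hi'⟩ := Finset.mem_filter.1 hi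
  refine ⟨i, his, fun O hO hx => ?_⟩
  have h0 : O.valuation (T i) ≠ 0 := (O.valuation.ne_zero_iff).2 hi'
  rw [etvPol_dom his h0, hT i his hi' O hO hx]
  intro j hjs hji
  by_cases hj0 : T j = 0
  · rw [hj0, map_zero]
    exact zero_lt_iff.2 h0
  · have h3 : n j < n i := lt_of_le_of_ne (hmax j (Finset.mem_filter.2 ⟨hjs, hj0⟩))
      fun h => hji (hn j hjs i his hj0 hi' h)
    refine lt_of_pow_lt_pow_left₀ m zero_le ?_
    rw [hT i his hi' O hO hx, hT j hjs hj0 O hO hx]
    exact zpow_lt_zpow_right₀ hx h3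

private theorem etvPol_pol {k K : Type} [Field k] [CharZero k] [FiniteDimensional ℚ k] [Field K]
    [CharZero K] [Algebra k K] (x : K) (m : ℕ) {e : k[X]} (he : e ≠ 0) :
    EtvPolLd x m (aeval x e) (m * e.natDegree) := by
  intro O hO hx
  rw [etvPol_deg hO hx he, ← pow_mul, mul_comm e.natDegree m]
  exact_mod_cast rfl

private theorem etvPol_L {k K : Type} [Field k] [CharZero k] [FiniteDimensional ℚ k] [Field K]
    [CharZero K] [Algebra k K] {x : K} (m : ℕ) {s : K}
    (hs : s ∈ IntermediateField.adjoin k {x}) (hs0 : s ≠ 0) :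
    ∃ n : ℤ, EtvPolLd x m s (m * n) := by
  obtain ⟨r, r', rfl⟩ := (IntermediateField.mem_adjoin_simple_iff k s).1 hs
  have hr : r ≠ 0 := fun h => hs0 (by rw [h, map_zero, zero_div])
  have hr' : r' ≠ 0 := fun h => hs0 (by rw [h, map_zero, div_zero])
  refine ⟨r.natDegree - r'.natDegree, ?_⟩
  have h1 := etvPol_mul (etvPol_pol x m hr) (etvPol_inv (etvPol_pol x m hr'))
  rw [← div_eq_mul_inv] at h1
  have h2 : ((m : ℤ) * r.natDegree + -(m * r'.natDegree)) =
      m * ((r.natDegree : ℤ) - r'.natDegree) := by ring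
  rwa [h2] at h1

private theorem etvPol_red {k K : Type} [Field k] [CharZero k] [Field K]
    [CharZero K] [Algebra k K] {x w : K} {E : k[X][X]} {m : ℕ} (hm : m.Prime) (hE : WtsK m E)
    (hEw : ev2K (algebraMap k K) x w E = 0) (hgen : IntermediateField.adjoin k {x, w} = ⊤) (t : K) :
    ∃ r : ℕ → K, (∀ j, r j ∈ IntermediateField.adjoin k {x}) ∧
      t = ∑ j ∈ Finset.range m, r j * w ^ j := by
  set L := IntermediateField.adjoin k {x} with hL
  have hxL : x ∈ L := IntermediateField.mem_adjoin_simple_self k x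
  let φ : k[X] →+* L := (aeval (⟨x, hxL⟩ : L) : k[X] →ₐ[k] L).toRingHom
  have hφ : (algebraMap L K).comp φ = eval₂RingHom (algebraMap k K) x := by
    refine Polynomial.ringHom_ext ?_ ?_
    · intro a
      show ((aeval (⟨x, hxL⟩ : L) (C a) : L) : K) = _
      rw [aeval_C, coe_eval₂RingHom, eval₂_C]
      rfl
    · show ((aeval (⟨x, hxL⟩ : L) (X : k[X]) : L) : K) = _
      rw [aeval_X, coe_eval₂RingHom, eval₂_X]
  have hQ : (E.map φ).Monic := hE.mon.map φ
  have hQd : (E.map φ).natDegree = m := by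
    rw [hE.mon.natDegree_map φ, hE.deg]
  have hQw : aeval w (E.map φ) = 0 := by
    rw [aeval_def, eval₂_map, hφ]
    exact hEw
  have hint : IsIntegral L w := ⟨_, hQ, hQw⟩
  have htop : t ∈ IntermediateField.adjoin L {w} := by
    have h1 : (IntermediateField.adjoin L {w}).restrictScalars k =
        IntermediateField.adjoin k {x, w} :=
      IntermediateField.adjoin_simple_adjoin_simple k x w
    rw [hgen] at h1
    have h2 : t ∈ (IntermediateField.adjoin L {w}).restrictScalars k := by
      rw [h1]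
      exact IntermediateField.mem_top
    exact h2
  have ht : t ∈ Algebra.adjoin L {w} := by
    rw [← IntermediateField.adjoin_simple_toSubalgebra_of_isAlgebraic hint.isAlgebraic]
    exact htop
  rw [Algebra.adjoin_singleton_eq_range_aeval] at ht
  obtain ⟨R, hR⟩ := ht
  have hR' : aeval w (R %ₘ (E.map φ)) = t := by
    rw [aeval_modByMonic_eq_self_of_root hQw]
    exact hR
  refine ⟨fun j => ((R %ₘ (E.map φ)).coeff j : K), fun j => SetLike.coe_mem _, ?_⟩
  rw [← hR', aeval_eq_sum_range' (n := m)]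
  · rfl
  · rw [← hQd]
    exact natDegree_modByMonic_lt _ hQ (fun h => by
      rw [h, natDegree_one] at hQd
      exact hm.ne_zero hQd.symm)

private theorem etvPol_rep {k K : Type} [Field k] [CharZero k] [FiniteDimensional ℚ k] [Field K]
    [CharZero K] [Algebra k K] {x w : K} {E : k[X][X]} {m : ℕ} (hm : m.Prime) (hE : WtsK m E)
    (hEw : ev2K (algebraMap k K) x w E = 0) (hgen : IntermediateField.adjoin k {x, w} = ⊤)
    {t : K} (ht : t ≠ 0) : ∃ n : ℤ, EtvPolLd x m t n := by
  classical
  obtain ⟨r, hr, hrt⟩ := etvPol_red hm hE hEw hgen t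
  set d := (E.coeff 0).natDegree with hd
  have hw : EtvPolLd x m w d := by
    intro O hO hx
    rw [etvPol_w hE hEw hO hx, zpow_natCast]
  have hch : ∀ j, ∃ n : ℤ, r j ≠ 0 → EtvPolLd x m (r j) (m * n) := by
    intro j
    by_cases h : r j = 0
    · exact ⟨0, fun h' => absurd h h'⟩
    · obtain ⟨n, h1⟩ := etvPol_L m (hr j) h
      exact ⟨n, fun _ => h1⟩
  choose n hn using hch
  have hT : ∀ j ∈ Finset.range m, r j * w ^ j ≠ 0 →
      EtvPolLd x m (r j * w ^ j) (m * n j + j * d) := fun j _ hj =>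
    etvPol_mul (hn j (left_ne_zero_of_mul hj)) (etvPol_pow hw j)
  have hne : ∃ j ∈ Finset.range m, r j * w ^ j ≠ 0 := by
    by_contra hcon
    push Not at hcon
    exact ht (by rw [hrt]; exact Finset.sum_eq_zero hcon)
  obtain ⟨j, -, h2⟩ := etvPol_sum hT (by
    intro i hi j hj _ _ hij
    rw [Finset.mem_range] at hi hj
    have h3 : (m : ℤ) ∣ ((i : ℤ) - j) * d := ⟨n j - n i, by linear_combination hij⟩
    rcases (Nat.prime_iff_prime_int.1 hm).dvd_or_dvd h3 with h4 | h4
    · obtain ⟨q, hq⟩ := h4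
      have h5 : q = 0 := by
        by_contra h6
        rcases lt_or_gt_of_ne h6 with h7 | h7
        · have : (m : ℤ) * q ≤ -m := by nlinarith
          omega
        · have : (m : ℤ) ≤ m * q := by nlinarith
          omega
      rw [h5, mul_zero] at hq
      omega
    · exact absurd (Int.natCast_dvd_natCast.1 h4) hE.zero) hne
  rw [← hrt] at h2
  exact ⟨_, h2⟩

theorem pole_uniq {k K : Type} [Field k] [CharZero k] [FiniteDimensional ℚ k] [Field K]
    [CharZero K] [Algebra k K] {x w : K} {E : k[X][X]} {m : ℕ} (hm : m.Prime) (hE : WtsK m E)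
    (hEw : ev2K (algebraMap k K) x w E = 0) (hgen : IntermediateField.adjoin k {x, w} = ⊤)
    {O O' : ValuationSubring K} (hO : IsPl O) (hO' : IsPl O') (hx : x ∉ O) (hx' : x ∉ O') :
    O = O' := by
  have key : ∀ O : ValuationSubring K, IsPl O → x ∉ O → ∀ (t : K) (n : ℤ),
      EtvPolLd x m t n → (t ∈ O ↔ n ≤ 0) := by
    intro O hO hx t n hn
    have hx1 : 1 < O.valuation x := by
      rw [← not_le, O.valuation_le_one_iff]
      exact hx
    have h1 := hn O hO hx1
    rw [← O.valuation_le_one_iff]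
    constructor
    · intro h2
      by_contra h3
      have h4 : O.valuation t ^ m ≤ 1 := pow_le_one₀ zero_le h2
      rw [h1] at h4
      exact absurd (one_lt_zpow₀ hx1 (not_le.1 h3)) (not_lt.2 h4)
    · intro h2
      by_contra h3
      have h4 : 1 < O.valuation t ^ m := one_lt_pow₀ (not_le.1 h3) hm.ne_zero
      rw [h1] at h4
      exact absurd (zpow_le_one_of_nonpos₀ hx1.le h2) (not_le.2 h4)
  ext t
  by_cases ht : t = 0
  · rw [ht]
    exact ⟨fun _ => O'.zero_mem, fun _ => O.zero_mem⟩
  · obtain ⟨n, hn⟩ := etvPol_rep hm hE hEw hgen ht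
    rw [key O hO hx t n hn, key O' hO' hx' t n hn]

end Pool.Agent.ETV
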