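import Pool.Agent.ETU.Mn2

/-!
# ETV-Trs : transport of the vanishing to the definitions of the statement
-/

open scoped BigOperators Polynomial
open Polynomial

namespace Pool.Agent.ETV

open Pool.Agent.ETU Pool.Agent.CST Pool.Agent.ISG Pool.Agent.Helper11 Pool.Agent.ISI Pool.Agent.CS2

private theorem etvtrs_quot {K : Type} [Field K] [CharZero K] {g : K} (hg : Transcendental ℚ g)
    {a : Kˣ} (ha : (a : K) ∈ IntermediateField.adjoin ℚ {g}) :
    ∃ p q : ℚ[X], p ≠ 0 ∧ q ≠ 0 ∧ a * pq g q = pq g p := by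
  obtain ⟨p, q, h⟩ := IntermediateField.mem_adjoin_simple_iff ℚ _ |>.1 ha
  have hq : q ≠ 0 := by
    rintro rfl
    rw [map_zero, div_zero] at h
    exact a.ne_zero h
  have hp : p ≠ 0 := by
    rintro rfl
    rw [map_zero, zero_div] at h
    exact a.ne_zero h
  refine ⟨p, q, hp, hq, ?_⟩
  apply Units.ext
  rw [Units.val_mul, pq_val hg hq, pq_val hg hp, h, div_mul_cancel₀ _ (aeval_ne hg hq)]

private theorem etvtrs_sy {K : Type} [Field K] [CharZero K] {g : K} (hg : Transcendental ℚ g)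
    {a b : Kˣ} (ha : (a : K) ∈ IntermediateField.adjoin ℚ {g})
    (hb : (b : K) ∈ IntermediateField.adjoin ℚ {g}) : sy a b ∈ LP g := by
  obtain ⟨p, q, hp, hq, h1⟩ := etvtrs_quot hg ha
  obtain ⟨r, s, hr, hs, h2⟩ := etvtrs_quot hg hb
  have h3 : ∀ (u : Kˣ) (p' q' : ℚ[X]), b * pq g q' = pq g p' →
      sy u b = sy u (pq g p') - sy u (pq g q') := by
    intro u p' q' h
    rw [← h, sy_mul_right]
    abel
  have h4 : ∀ u : Kˣ, sy a u = sy (pq g p) u - sy (pq g q) u := by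
    intro u
    rw [sy_anti, ← neg_sub_neg, ← sy_anti u (pq g p), ← sy_anti u (pq g q), ← h1, sy_mul_right]
    abel
  have h5 : ∀ p' q' : ℚ[X], p' ≠ 0 → q' ≠ 0 → sy (pq g p') (pq g q') ∈ LP g :=
    fun p' q' hp' hq' => Submodule.subset_span ⟨p', q', hp', hq', rfl⟩
  rw [h3 a r s h2, h4, h4]
  exact Submodule.sub_mem _ (Submodule.sub_mem _ (h5 _ _ hp hr) (h5 _ _ hq hr))
    (Submodule.sub_mem _ (h5 _ _ hp hs) (h5 _ _ hq hs))

theorem transport0 {K : Type} [Field K] [CharZero K] {x : Kˣ} {c : ℚ} (hc : c ≠ 0)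
    (hx : Transcendental ℚ ((c : K) * x)) {r : ℕ} {f : Fin r → ℤ[X]} {u : Fin r → Kˣ}
    (hu : ∀ i, (u i : K) = aeval ((c : K) * x) (f i))
    (h : ((⨆ i, slM (u i)) ⊔ LP ((c : K) * x)) ⊓ geomM K = ⊥) :
    ((⨆ (v : Kˣ) (_ : ∃ i, (v : K) = aeval ((c : K) * x) (f i)), slice v) ⊔
      ratSlice x) ⊓ unramifiedK2 K = ⊥ := by
  have hadj : IntermediateField.adjoin ℚ {(x : K)} ≤
      IntermediateField.adjoin ℚ {(c : K) * x} := by
    rw [IntermediateField.adjoin_simple_le_iff]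
    have h1 : (c : K)⁻¹ * ((c : K) * x) ∈ IntermediateField.adjoin ℚ {(c : K) * x} :=
      mul_mem (inv_mem (SubfieldClass.ratCast_mem _ c))
        (IntermediateField.mem_adjoin_simple_self ℚ _)
    rwa [inv_mul_cancel_left₀ (by exact_mod_cast hc)] at h1
  have h1 : ∀ z ∈ ((⨆ (v : Kˣ) (_ : ∃ i, (v : K) = aeval ((c : K) * x) (f i)), slice v) ⊔
      ratSlice x) ⊓ unramifiedK2 K, (eK K).toLinearMap z ∈
        ((⨆ i, slM (u i)) ⊔ LP ((c : K) * x)) ⊓ geomM K := by
    rintro z ⟨hz, hur⟩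
    refine ⟨?_, eK_geom hur⟩
    obtain ⟨a, ha, b, hb, rfl⟩ := Submodule.mem_sup.1 hz
    rw [map_add]
    refine Submodule.add_mem _ (Submodule.mem_sup_left ?_) (Submodule.mem_sup_right ?_)
    · have h2 : (⨆ (v : Kˣ) (_ : ∃ i, (v : K) = aeval ((c : K) * x) (f i)), slice v) ≤
          (⨆ i, slM (u i)).comap (eK K).toLinearMap := by
        refine iSup_le fun v => iSup_le fun ⟨i, hi⟩ => ?_
        have hvi : v = u i := by
          apply Units.ext
          rw [hi, hu i]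
        intro y hy
        subst hvi
        refine (le_iSup (fun i => slM (u i)) i) ?_
        change eK K y ∈ _
        refine eK_span (fun a _ => a = u i) _ ?_ (Submodule.span_mono ?_ hy)
        · rintro a b rfl
          exact Submodule.subset_span ⟨b, rfl⟩
        · rintro _ ⟨b, rfl⟩
          exact ⟨u i, b, rfl, rfl⟩
      exact h2 ha
    · refine eK_span (fun a b => (a : K) ∈ IntermediateField.adjoin ℚ {(x : K)} ∧
        (b : K) ∈ IntermediateField.adjoin ℚ {(x : K)}) _ ?_ (Submodule.span_mono ?_ hb)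
      · rintro a b ⟨ha1, hb1⟩
        exact etvtrs_sy hx (hadj ha1) (hadj hb1)
      · rintro _ ⟨a, b, ha1, hb1, rfl⟩
        exact ⟨a, b, ⟨ha1, hb1⟩, rfl⟩
  refine (Submodule.eq_bot_iff _).2 fun z hz => ?_
  have h2 := h1 z hz
  rw [h, Submodule.mem_bot] at h2
  exact (eK K).injective (h2.trans (map_zero _).symm)

end Pool.Agent.ETV
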