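import Pool.Agent.ETV.Defs
import Pool.Agent.ETU.KIrr

/-!
# MODULE ETV-Nic : nice points are fixed by the tame group; irreducibility over them

`nic_fix`: `σ α` is a root of `P₀` too (`P₀` has rational coefficients), `‖σ α - α‖ < 1` by `hT.iner`, and
`0 = P₀(σ α) - P₀(α) = (σ α - α) (P₀'(α) + (σ α - α) R)`, `‖R‖ ≤ 1` (Taylor, integral coefficients), so `σ α ≠ α` would give `‖P₀'(α)‖ < 1`.
`nic_irrK`: the proof of `good_irrK` (ETU/KIrr.lean) from the line after `hfixα` on, word for word (with `(hN.2 α hα₀).1` for `hg.1`).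
-/

open scoped BigOperators Polynomial
open Polynomial

namespace Pool.Agent.ETV

open Pool.Agent.ETU

/-- the valuation ring -/
private def etvNicO {p : ℕ} {M : Type} [NormedField M] (hna : NA p M) : Subring M where
  carrier := {t | ‖t‖ ≤ 1}
  mul_mem' := by
    intro a b ha hb
    simp only [Set.mem_ofPred_eq, norm_mul] at *
    exact mul_le_one₀ ha (norm_nonneg _) hb
  one_mem' := by simp
  add_mem' := by
    intro a b ha hb
    simp only [Set.mem_ofPred_eq] at *
    exact (hna.na a b).trans (max_le ha hb)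
  zero_mem' := by simp
  neg_mem' := by
    intro a ha
    simp only [Set.mem_ofPred_eq, norm_neg] at *
    exact ha

/-- Taylor -/
private theorem etvNic_tay {p : ℕ} {M : Type} [NormedField M] (hna : NA p M) (Q : M[X])
    (hQ : ∀ i, ‖Q.coeff i‖ ≤ 1) {α β : M} (hα : ‖α‖ ≤ 1) (hβ : ‖β - α‖ < 1)
    (h0 : Q.eval α = 0) (h1 : Q.eval β = 0) (h2 : ‖Q.derivative.eval α‖ = 1) : β = α := by
  let O := etvNicO hna
  let x : O := ⟨α, hα⟩
  let y : O := ⟨β - α, hβ.le⟩
  have hc : (↑Q.coeffs : Set M) ⊆ O := by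
    intro t ht
    obtain ⟨i, -, rfl⟩ := mem_coeffs_iff.1 (Finset.mem_coe.1 ht)
    exact hQ i
  obtain ⟨H, hH⟩ : ∃ H : O[X], H.map O.subtype = Q := ⟨Q.toSubring O hc, Q.map_toSubring O hc⟩
  have hev : ∀ (u : O), ((eval u H : O) : M) = Q.eval (u : M) := by
    intro u
    rw [← hH, eval_map]
    exact (hom_eval₂ H (RingHom.id O) O.subtype u)
  have hev' : ((eval x (derivative H) : O) : M) = Q.derivative.eval α := by
    rw [← hH, derivative_map, eval_map]
    exact (hom_eval₂ (derivative H) (RingHom.id O) O.subtype x)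
  obtain ⟨k, hk⟩ := Polynomial.binomExpansion H x y
  have hk2 := congrArg (fun u : O => (u : M)) hk
  simp only [Subring.coe_add, Subring.coe_mul, Subring.coe_pow] at hk2
  have hxy : ((x + y : O) : M) = β := by
    show α + (β - α) = β
    ring
  rw [hev, hev, hev', hxy, h1] at hk2
  have hx : ((x : O) : M) = α := rfl
  have hy : ((y : O) : M) = β - α := rfl
  rw [hx, hy, h0, zero_add] at hk2
  have hk3 : (β - α) * (Q.derivative.eval α + (k : M) * (β - α)) = 0 := by
    rw [hk2]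
    ring
  rcases mul_eq_zero.1 hk3 with h | h
  · exact sub_eq_zero.1 h
  · exfalso
    have h3 : Q.derivative.eval α = -((k : M) * (β - α)) := eq_neg_of_add_eq_zero_left h
    rw [h3, norm_neg, norm_mul] at h2
    have h4 : ‖(k : M)‖ ≤ 1 := k.2
    have h5 : ‖(k : M)‖ * ‖β - α‖ < 1 := mul_lt_one_of_nonneg_of_lt_one_right h4 (norm_nonneg _) hβ
    rw [h2] at h5
    exact lt_irrefl _ h5

theorem nic_fix {p m : ℕ} [Fact p.Prime] {G : Subgroup (PadicAlgCl p ≃+* PadicAlgCl p)}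
    (hT : TameG p m (PadicAlgCl p) G) {P₀ : ℚ[X]} (hN : Nic p P₀) {α : PadicAlgCl p}
    (hα : aeval α P₀ = 0) {σ : PadicAlgCl p ≃+* PadicAlgCl p} (hσ : σ ∈ G) : σ α = α := by
  obtain ⟨hc, hr⟩ := hN
  obtain ⟨h1, h2⟩ := hr α hα
  have hσα : aeval (σ α) P₀ = 0 := by
    have h3 := hom_eval₂ P₀ (algebraMap ℚ (PadicAlgCl p)) (σ : PadicAlgCl p →+* PadicAlgCl p) α
    have h4 : (σ : PadicAlgCl p →+* PadicAlgCl p).comp (algebraMap ℚ (PadicAlgCl p)) =
        algebraMap ℚ (PadicAlgCl p) := RingHom.ext_rat _ _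
    rw [h4] at h3
    rw [aeval_def] at hα ⊢
    rw [hα, map_zero] at h3
    exact h3.symm
  refine etvNic_tay hT.na (P₀.map (algebraMap ℚ (PadicAlgCl p))) (fun i => ?_) h1.le
    (hT.iner σ hσ α h1.le) ?_ ?_ ?_
  · rw [coeff_map]
    exact hc i
  · rw [eval_map, ← aeval_def]
    exact hα
  · rw [eval_map, ← aeval_def]
    exact hσα
  · rw [derivative_map, eval_map, ← aeval_def]
    exact h2

private theorem etvNic_map {k M : Type} [Field k] [Field M] (τ : k →+* M) (σ : M ≃+* M)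
    (hτ : ∀ c : k, σ (τ c) = τ c) (α : M) (hα : σ α = α) (Q : k[X]) :
    σ (Q.eval₂ τ α) = Q.eval₂ τ α := by
  have h := Polynomial.hom_eval₂ Q τ (σ : M →+* M) α
  have h1 : (σ : M →+* M).comp τ = τ := RingHom.ext hτ
  have h2 : (σ : M →+* M) α = α := hα
  rw [h1, h2] at h
  exact h

theorem nic_irrK {p m : ℕ} [Fact p.Prime] (hm : m.Prime) {k : Type}
    [Field k] [CharZero k] {τ : k →+* PadicAlgCl p}
    {G : Subgroup (PadicAlgCl p ≃+* PadicAlgCl p)} (hT : TameG p m (PadicAlgCl p) G)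
    (hτ : ∀ σ ∈ G, ∀ c : k, σ (τ c) = τ c)
    {E : k[X][X]} (hE : RamK p m τ E) {P₀ : ℚ[X]} (hN : Nic p P₀) {P : k[X]}
    (hP : Irreducible P) {α : PadicAlgCl p} (hα : P.eval₂ τ α = 0) (hα₀ : aeval α P₀ = 0)
    (R : k[X][X]) (hR : R.natDegree < m) (w : PadicAlgCl p)
    (hw : ev2K τ α w E = 0) (hRw : ev2K τ α w R = 0) : ∀ i, P ∣ R.coeff i := by
  classical
  have hp : p.Prime := Fact.out
  have hfixα : ∀ σ ∈ G, σ α = α := fun σ hσ => nic_fix hT hN hα₀ hσ
  have hα1 : ‖α‖ = 1 := (hN.2 α hα₀).1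
  set μ : (PadicAlgCl p)[X] := R.map (eval₂RingHom τ α) with hμ
  have hμ0 : μ = 0 := by
    by_contra hne
    obtain ⟨N, h, hN', hh, hwn⟩ := hE α w hα1 hw
    have h1 : m ≤ μ.natDegree := by
      refine tame_degK hp hm hT hN' hwn hh hne (fun σ hσ => ?_) ?_
      · ext i
        rw [coeff_map, hμ, coeff_map]
        exact etvNic_map τ σ (hτ σ hσ) α (hfixα σ hσ) _
      · rw [IsRoot.def, hμ, eval_map]
        exact hRw
    have h2 : μ.natDegree ≤ R.natDegree := natDegree_map_le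
    omega
  intro i
  have h1 : (R.coeff i).eval₂ τ α = 0 := by
    have h2 := congrArg (fun q : (PadicAlgCl p)[X] => q.coeff i) hμ0
    simp only [hμ, coeff_map, coeff_zero] at h2
    exact h2
  by_contra hnd
  obtain ⟨u, v, huv⟩ := (hP.coprime_iff_not_dvd.2 hnd)
  have h2 := congrArg (eval₂ τ α) huv
  rw [eval₂_add, eval₂_mul, eval₂_mul, hα, h1, mul_zero, mul_zero, add_zero, eval₂_one] at h2
  exact zero_ne_one h2

end Pool.Agent.ETV
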