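import Pool.Agent.ETV.Emb
import Pool.Agent.ETV.Nic
import Pool.Agent.ETU.KTa
import Pool.Agent.ETU.KUnq

/-!
# The place over `P` is unique for all `P` which matter

`P₀` from `exists_min`. If `P₀ ∣ X`, then `P ∣ X`, `P = X` (`P` monic irreducible), a contradiction. Otherwise, if `P ∣ f j`
or `P₀.natDegree ≤ Bd f`, then `Nic p₁ P₀` (`Prm.nic`); take a root `α` of `P₀` in `PadicAlgCl p₁`, `τ` from `exists_min`, `G` from
`exists_tameK` (ETU/KTa.lean) and apply `place_eqK` (ETU/KUnq.lean) with `nic_irrK`. Otherwise `Pool.Agent.ETI.deg_unif` (with `κ = 0`) gives a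
root `α` of `P₀` in one of the two fields with `GoodD 0 f a α`, so `Good f a α`; `τ` from `exists_min`, `place_eqK` with `good_irrK`, as in
`main_geomK` (ETU/KMain.lean).
-/

open scoped BigOperators Polynomial
open Polynomial

namespace Pool.Agent.ETV

open Pool.Agent.ETU Pool.Agent.CST

private theorem etvUnq_X {k : Type} [Field k] [CharZero k] {P : k[X]} (hP : P.Monic)
    (hP' : Irreducible P) {P₀ : ℚ[X]} (hd : P ∣ P₀.map (algebraMap ℚ k)) (hX : P₀ ∣ X) :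
    P = X := by
  have h1 : P ∣ (X : k[X]) := by
    have h2 := Polynomial.map_dvd (algebraMap ℚ k) hX
    rw [Polynomial.map_X] at h2
    exact hd.trans h2
  exact eq_of_monic_of_associated hP monic_X ((Irreducible.dvd_irreducible_iff_associated hP'
    irreducible_X).1 h1)

/-- a good point at one prime -/
private theorem etvUnq_good {k K : Type} [Field k] [CharZero k] [FiniteDimensional ℚ k] [Field K]
    [CharZero K] [Algebra k K] {X' w : K} (hX : Transcendental ℚ X') {m : ℕ} (hm : m.Prime)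
    (hk : Module.finrank ℚ k < m) {E : k[X][X]} (hE : E.Monic) (hd : E.natDegree = m)
    (hEw : ev2K (algebraMap k K) X' w E = 0) (hgen : IntermediateField.adjoin k {X', w} = ⊤)
    {p : ℕ} [Fact p.Prime] (hpm : ¬ m ∣ p * (p - 1))
    (hR : ∀ τ : k →+* PadicAlgCl p, RamK p m τ E) {r : ℕ} {f : Fin r → ℤ[X]}
    {P : k[X]} (hP : P.Monic) (hP' : Irreducible P) {a : Fin r → ℤ} (hrel : RelK f a P)
    {τ : k →+* PadicAlgCl p} {α : PadicAlgCl p} (hα : P.eval₂ τ α = 0) (hg : Good f a α)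
    {O O' : ValuationSubring K} (hO : IsPl O) (hO' : IsPl O')
    (hv : O.valuation (aeval X' P) < 1) (hv' : O'.valuation (aeval X' P) < 1) : O = O' := by
  obtain ⟨G, hG, hG'⟩ := exists_tameK (p := p) hm (by
    rintro rfl
    exact hpm (dvd_mul_right _ _)) hk τ
  exact place_eqK hX hE hd hEw hgen hP hP' hα
    (fun R hR' w' h2 h3 => good_irrK hm hpm hG hG' (hR τ) f a hP' hrel hα hg R hR' w' h2 h3) hO
    hO' hv hv'

/-- a nice polynomial at one prime -/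
private theorem etvUnq_nic {k K : Type} [Field k] [CharZero k] [FiniteDimensional ℚ k] [Field K]
    [CharZero K] [Algebra k K] {X' w : K} (hX : Transcendental ℚ X') {m : ℕ} (hm : m.Prime)
    (hk : Module.finrank ℚ k < m) {E : k[X][X]} (hE : E.Monic) (hd : E.natDegree = m)
    (hEw : ev2K (algebraMap k K) X' w E = 0) (hgen : IntermediateField.adjoin k {X', w} = ⊤)
    {p : ℕ} [Fact p.Prime] (hpm : ¬ m ∣ p * (p - 1))
    (hR : ∀ τ : k →+* PadicAlgCl p, RamK p m τ E)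
    {P : k[X]} (hP : P.Monic) (hP' : Irreducible P) {P₀ : ℚ[X]} (hP₀ : Irreducible P₀)
    (hemb : ∀ α : PadicAlgCl p, aeval α P₀ = 0 → ∃ τ : k →+* PadicAlgCl p, P.eval₂ τ α = 0)
    (hN : Nic p P₀)
    {O O' : ValuationSubring K} (hO : IsPl O) (hO' : IsPl O')
    (hv : O.valuation (aeval X' P) < 1) (hv' : O'.valuation (aeval X' P) < 1) : O = O' := by
  obtain ⟨α, hα₀⟩ := IsAlgClosed.exists_aeval_eq_zero (PadicAlgCl p) P₀
    (degree_pos_of_irreducible hP₀).ne'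
  obtain ⟨τ, hα⟩ := hemb α hα₀
  obtain ⟨G, hG, hG'⟩ := exists_tameK (p := p) hm (by
    rintro rfl
    exact hpm (dvd_mul_right _ _)) hk τ
  exact place_eqK hX hE hd hEw hgen hP hP' hα
    (fun R hR' w' h2 h3 => nic_irrK hm hG hG' (hR τ) hN hP' hα hα₀ R hR' w' h2 h3) hO
    hO' hv hv'

theorem uniq {k K : Type} [Field k] [CharZero k] [FiniteDimensional ℚ k] [Field K] [CharZero K]
    [Algebra k K] {X' w : K} (hX : Transcendental ℚ X') {m : ℕ} (hm : m.Prime)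
    (hk : Module.finrank ℚ k < m) {E : k[X][X]} (hE : E.Monic) (hd : E.natDegree = m)
    (hEw : ev2K (algebraMap k K) X' w E = 0) (hgen : IntermediateField.adjoin k {X', w} = ⊤)
    {p₁ p₂ : ℕ} [Fact p₁.Prime] [Fact p₂.Prime] (h12 : p₁ ≠ p₂) (hm₁ : ¬ m ∣ p₁ * (p₁ - 1))
    (hm₂ : ¬ m ∣ p₂ * (p₂ - 1)) (hR₁ : ∀ τ : k →+* PadicAlgCl p₁, RamK p₁ m τ E)
    (hR₂ : ∀ τ : k →+* PadicAlgCl p₂, RamK p₂ m τ E) {r : ℕ} {f : Fin r → ℤ[X]}
    (hf₁ : Prm p₁ f) (hf₂ : Prm p₂ f)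
    {P : k[X]} (hP : P.Monic) (hP' : Irreducible P) (hPX : P ≠ X)
    (hrel : (∃ a : Fin r → ℤ, Prim a ∧ RelK f a P) ∨ ∃ j, P ∣ (f j).map (Int.castRingHom k))
    {O O' : ValuationSubring K} (hO : IsPl O) (hO' : IsPl O')
    (hv : O.valuation (aeval X' P) < 1) (hv' : O'.valuation (aeval X' P) < 1) : O = O' := by
  obtain ⟨P₀, hM, hI, hdvd, hmin, hemb⟩ := exists_min hP hP'
  have hX0 : ¬ P₀ ∣ X := fun h => hPX (etvUnq_X hP hP' hdvd h)
  obtain ⟨hr1, hr2⟩ := rel_min (f := f) hmin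
  rcases hrel with ⟨a, ha, hrel⟩ | ⟨j, hj⟩
  · by_cases hg₁ : ∃ α : PadicAlgCl p₁, aeval α P₀ = 0 ∧ ETI.GoodD 0 f a α
    · obtain ⟨α, hα₀, hg⟩ := hg₁
      obtain ⟨τ, hα⟩ := hemb p₁ α hα₀
      exact etvUnq_good hX hm hk hE hd hEw hgen hm₁ hR₁ hP hP' hrel hα hg.1 hO hO' hv hv'
    by_cases hg₂ : ∃ α : PadicAlgCl p₂, aeval α P₀ = 0 ∧ ETI.GoodD 0 f a α
    · obtain ⟨α, hα₀, hg⟩ := hg₂
      obtain ⟨τ, hα⟩ := hemb p₂ α hα₀
      exact etvUnq_good hX hm hk hE hd hEw hgen hm₂ hR₂ hP hP' hrel hα hg.1 hO hO' hv hv'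
    push Not at hg₁ hg₂
    have h1 := ETI.deg_unif h12 hf₁.fam hf₂.fam hf₁.big hf₂.big 0 ha hM hI (hr1 a hrel) hg₁ hg₂
    have ha0 : a ≠ 0 := by
      rintro rfl
      obtain ⟨i, hi⟩ := ha 2 Nat.prime_two
      exact hi (dvd_zero _)
    exact etvUnq_nic hX hm hk hE hd hEw hgen hm₁ hR₁ hP hP' hI (hemb p₁)
      (hf₁.nic P₀ hM hI hX0 (Or.inr ⟨h1, a, ha0, hr1 a hrel⟩)) hO hO' hv hv'
  · exact etvUnq_nic hX hm hk hE hd hEw hgen hm₁ hR₁ hP hP' hI (hemb p₁)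
      (hf₁.nic P₀ hM hI hX0 (Or.inl ⟨j, hr2 j hj⟩)) hO hO' hv hv'

end Pool.Agent.ETV
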