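import Pool.Agent.ETV.Defs
import Pool.Agent.ETU.KFin

/-!
# MODULE ETV-Zro : the vanishing

`zero_tupleK`: the corrected functions of `correctK` have order zero at all places with `x`
integral (`supportK` and the hypothesis `H`); there is at most one pole of `x`, so they are
constants, and the class is in `LF k x u ⊓ geomM K = ⊥`.
-/

open scoped BigOperators Polynomial
open Polynomial

namespace Pool.Agent.ETV

open Pool.Agent.ETU Pool.Agent.CST Pool.Agent.Helper11 Pool.Agent.ISI Pool.Agent.CSG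

private theorem etvZro_inv {K : Type} [Field K] [CharZero K] (O : ValuationSubring K) (h : Kˣ) :
    vo O h⁻¹ = -vo O h := by
  have h1 := vo_zpow O h (-1)
  rw [zpow_neg_one] at h1
  rw [h1]
  ring

private theorem etvZro_mem {k K : Type} [Field k] [CharZero k] [Field K] [CharZero K] [Algebra k K]
    (hk : Algebra.IsAlgebraic ℚ k) {x : K} {O : ValuationSubring K} (hO : IsPl O) (hxO : x ∈ O)
    (R : k[X]) : aeval x R ∈ O := by
  induction R using Polynomial.induction_on' with
  | add p q hp hq =>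
    rw [map_add]
    exact O.add_mem _ _ hp hq
  | monomial n a =>
    rw [aeval_monomial]
    exact O.mul_mem _ _ (const_mem hk hO a) (pow_mem hxO n)

private theorem etvZro_poly {K : Type} [Field K] [CharZero K] {x : K} (hx : Transcendental ℚ x)
    (hK : FiniteDimensional (IntermediateField.adjoin ℚ {x}) K) {O : ValuationSubring K}
    (hO : IsPl O) (hxO : x ∈ O) : ∃ p : ℚ[X], p ≠ 0 ∧ O.valuation (aeval x p) < 1 := by
  obtain ⟨P, hP, hP0, hPv⟩ := exists_center hx hK hO hxO
  obtain ⟨b, hb, hb0⟩ := Submodule.exists_mem_ne_zero_of_ne_bot hP0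
  have h1 : P.comap (algebraMap (Ah x) (Bh x)) ≠ ⊥ :=
    Ideal.comap_ne_bot_of_integral_mem hb0 hb (Algebra.IsIntegral.isIntegral b)
  obtain ⟨a, ha, ha0⟩ := Submodule.exists_mem_ne_zero_of_ne_bot h1
  obtain ⟨p, hp⟩ : ∃ p : ℚ[X], aeval x p = (a : K) := by
    have h2 : (a : K) ∈ (aeval (R := ℚ) x).range :=
      Algebra.adjoin_singleton_eq_range_aeval ℚ x ▸ a.2
    exact h2
  refine ⟨p, ?_, ?_⟩
  · rintro rfl
    rw [map_zero] at hp
    exact ha0 (Subtype.ext hp.symm)
  · rw [hp]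
    exact (hPv _).2 ha

private theorem etvZro_factor {k K : Type} [Field k] [CharZero k] [Field K] [CharZero K]
    [Algebra k K] (hk : Algebra.IsAlgebraic ℚ k) {x : K} {O : ValuationSubring K} (hO : IsPl O)
    (hxO : x ∈ O) (R : k[X]) : R ≠ 0 → O.valuation (aeval x R) < 1 →
      ∃ P : k[X], P.Monic ∧ Irreducible P ∧ O.valuation (aeval x P) < 1 := by
  have hle : ∀ R : k[X], O.valuation (aeval x R) ≤ 1 := fun R =>
    (O.valuation_le_one_iff _).2 (etvZro_mem hk hO hxO R)
  induction R using WfDvdMonoid.induction_on_irreducible with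
  | zero => exact fun h => absurd rfl h
  | unit u hu =>
    intro _ hv
    obtain ⟨w, hw⟩ := hu.exists_right_inv
    have h1 : O.valuation (aeval x u) * O.valuation (aeval x w) = 1 := by
      rw [← map_mul, ← map_mul, hw, map_one, map_one]
    have h2 : O.valuation (aeval x u) * O.valuation (aeval x w) < 1 :=
      lt_of_le_of_lt (mul_le_of_le_one_right' (hle w)) hv
    rw [h1] at h2
    exact absurd h2 (lt_irrefl _)
  | mul a i ha hi ih =>
    intro _ hv
    by_cases h1 : O.valuation (aeval x i) < 1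
    · refine ⟨i * C i.leadingCoeff⁻¹, monic_mul_leadingCoeff_inv hi.ne_zero, ?_, ?_⟩
      · refine (associated_mul_unit_right i _ ?_).irreducible hi
        exact isUnit_C.2 (isUnit_iff_ne_zero.2 (inv_ne_zero (leadingCoeff_ne_zero.2 hi.ne_zero)))
      · rw [map_mul, map_mul]
        exact lt_of_le_of_lt (mul_le_of_le_one_right' (hle _)) h1
    · refine ih ha ?_
      have h2 : O.valuation (aeval x i) = 1 := le_antisymm (hle i) (not_lt.1 h1)
      rwa [map_mul, map_mul, h2, one_mul] at hv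

theorem zero_tupleK {k K : Type} [Field k] [CharZero k] [FiniteDimensional ℚ k] [Field K]
    [CharZero K] [Algebra k K] {x : K} (hx : Transcendental k x) (hc : CstK k K)
    (hK : FiniteDimensional (IntermediateField.adjoin ℚ {x}) K) {r : ℕ} {f : Fin r → ℤ[X]}
    (hf : ∀ i, (f i).Monic) {u : Fin r → Kˣ} (hu : ∀ i, (u i : K) = aeval x (f i))
    (hLF : LF k x u ⊓ geomM K = ⊥)
    (hpol : ∀ O O' : ValuationSubring K, IsPl O → IsPl O' → x ∉ O → x ∉ O' → O = O')
    (H : ∀ P : k[X], P.Monic → Irreducible P → ((∃ a : Fin r → ℤ, Prim a ∧ RelK f a P) ∨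
        ∃ j, P ∣ (f j).map (Int.castRingHom k)) →
      ∀ O O' : ValuationSubring K, IsPl O → IsPl O' → O.valuation (aeval x P) < 1 →
        O'.valuation (aeval x P) < 1 → O = O') :
    ((⨆ i, slM (u i)) ⊔ LP x) ⊓ geomM K = ⊥ := by
  classical
  have hk : Algebra.IsAlgebraic ℚ k := Algebra.IsAlgebraic.of_finite ℚ k
  have hxQ : Transcendental ℚ x := fun h => hx (h.tower_top k)
  have hf0 : ∀ i, f i ≠ 0 := fun i => (hf i).ne_zero
  rw [eq_bot_iff]
  rintro z ⟨hz, hzg⟩
  obtain ⟨N, h, β, Q, hN, hβ, hNz, hQ⟩ := correctK hx hK hf0 hu hz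
  have hv : ∀ i, ∀ O, IsPl O → x ∈ O → vo O (h i) = 0 := by
    intro i O hO hxO
    by_contra hne
    obtain ⟨p, hp0, hpv⟩ := etvZro_poly hxQ hK hO hxO
    obtain ⟨P, hP, hP', hPv⟩ := etvZro_factor hk hO hxO (p.map (algebraMap ℚ k))
      ((Polynomial.map_ne_zero_iff (algebraMap ℚ k).injective).2 hp0)
      (by rwa [aeval_map_algebraMap])
    obtain ⟨hQ1, hQ2, hQ3, hQ4⟩ := hQ P hP hP'
    by_cases hPf : ∃ j, P ∣ (f j).map (Int.castRingHom k)
    · have he := H P hP hP' (Or.inr hPf) O (Q P) hO hQ1 hPv hQ3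
      exact hne (by rw [he]; exact hQ4 i)
    · rw [not_exists] at hPf
      obtain ⟨a, ha, hrel⟩ := supportK hx hf0 hu hNz hzg (LF_le hx hf0 hu hβ) hP hP' hPf hQ1 hQ2
        hQ3 hQ4 hO hxO hPv ⟨i, hne⟩
      have he := H P hP hP' (Or.inl ⟨a, ha, hrel⟩) O (Q P) hO hQ1 hPv hQ3
      exact hne (by rw [he]; exact hQ4 i)
  have hcst : ∀ i, ∃ c : k, algebraMap k K c = (h i : K) := by
    intro i
    by_cases hp : ∃ O, IsPl O ∧ x ∉ O ∧ vo O (h i) < 0
    · obtain ⟨O, hO, hxO, hlt⟩ := hp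
      obtain ⟨c, hc'⟩ := const_of_mem hc hK (h := ((h i)⁻¹ : Kˣ)) fun O' hO' => by
        refine (vo_nonneg_iff hO' _).1 ?_
        rw [etvZro_inv]
        by_cases hxO' : x ∈ O'
        · rw [hv i O' hO' hxO', neg_zero]
        · rw [hpol O' O hO' hO hxO' hxO]
          omega
      refine ⟨c⁻¹, ?_⟩
      rw [map_inv₀, hc', Units.val_inv_eq_inv_val, inv_inv]
    · obtain ⟨c, hc'⟩ := const_of_mem hc hK (h := (h i : K)) fun O' hO' => by
        refine (vo_nonneg_iff hO' _).1 ?_
        by_cases hxO' : x ∈ O'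
        · rw [hv i O' hO' hxO']
        · by_contra hlt
          exact hp ⟨O', hO', hxO', not_le.1 hlt⟩
      exact ⟨c, hc'⟩
  choose c hc' using hcst
  have h1 : (N : ℚ) • z ∈ LF k x u := by
    rw [hNz]
    refine Submodule.add_mem _ (Submodule.sum_mem _ fun i _ => ?_) hβ
    have h2 : c i ≠ 0 := by
      intro h0
      have h3 := hc' i
      rw [h0, map_zero] at h3
      exact (h i).ne_zero h3.symm
    have h3 : h i = pqk x (C (c i)) :=
      pqk_congr hx (C_ne_zero.2 h2) (by rw [aeval_C]; exact (hc' i).symm)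
    rw [h3]
    exact Submodule.mem_sup_left (Submodule.mem_iSup_of_mem i
      (Submodule.subset_span ⟨C (c i), C_ne_zero.2 h2, rfl⟩))
  have h2 : (N : ℚ) • z ∈ LF k x u ⊓ geomM K := ⟨h1, Submodule.smul_mem _ _ hzg⟩
  rw [hLF, Submodule.mem_bot] at h2
  have hN0 : (N : ℚ) ≠ 0 := by exact_mod_cast hN.ne'
  rw [Submodule.mem_bot]
  exact (smul_eq_zero.1 h2).resolve_left hN0

end Pool.Agent.ETV
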