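import Pool.Agent.ETV.Ind
import Pool.Agent.ETV.Lrg
import Pool.Agent.ETV.Pol
import Pool.Agent.ETV.Stm
import Pool.Agent.ETV.Trs
import Pool.Agent.ETV.Unq
import Pool.Agent.ETV.Zro
import Pool.Agent.ETU.KMn3
import Pool.Agent.DNS.Fin

/-!
# Assembly: the vanishing for almost all `c`
-/

open scoped BigOperators Polynomial
open Polynomial

namespace Pool.Agent.ETV

open Pool.Agent.ETU Pool.Agent.CST Pool.Agent.ISG Pool.Agent.Helper11 Pool.Agent.ISI Pool.Agent.CS2
open Pool.Agent.CSG Pool.Agent.DNS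

private theorem etvmn_mem {K : Type} [Field K] [CharZero K] {O : ValuationSubring K} (hO : IsPl O)
    {a : K} (ha : IsAlgebraic ℚ a) : a ∈ O := by
  let φ : ℚ →+* O := (algebraMap ℚ K).codRestrict O.toSubring fun q => by
    rw [eq_ratCast]
    exact hO.2 q
  obtain ⟨p, hp, hpa⟩ := ha.isIntegral
  have h1 : IsIntegral O a := by
    refine ⟨p.map φ, hp.map _, ?_⟩
    rw [eval₂_map]
    exact hpa
  obtain ⟨y, hy⟩ := IsIntegrallyClosed.isIntegral_iff.1 h1
  rw [← hy]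
  exact y.2

private theorem etvmn_norm {p : ℕ} [Fact p.Prime] {c : ℚ} (hc : c ≠ 0) {s : ℕ}
    (h : padicValRat p c = s) : ‖((c⁻¹ : ℚ) : ℚ_[p])‖ = (p : ℝ) ^ s := by
  rw [Rat.cast_inv, norm_inv, Padic.eq_padicNorm, padicNorm.eq_zpow_of_nonzero hc, h]
  push_cast
  rw [zpow_neg, inv_inv, zpow_natCast]

private theorem etvmn_rat {K : Type} [Field K] [CharZero K] {O : ValuationSubring K} (hO : IsPl O)
    {c : ℚ} (hc : c ≠ 0) : O.valuation (c : K) = 1 := by
  refine le_antisymm ((O.valuation_le_one_iff _).2 (hO.2 c)) ?_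
  have h1 := (O.valuation_le_one_iff _).2 (hO.2 c⁻¹)
  rw [Rat.cast_inv, map_inv₀] at h1
  have h2 : (0 : _) < O.valuation (c : K) :=
    zero_lt_iff.2 ((Valuation.ne_zero_iff _).2 (by exact_mod_cast hc))
  rwa [inv_le_one₀ h2] at h1

theorem main_zero {k K : Type} [Field k] [CharZero k] [FiniteDimensional ℚ k] [Field K]
    [CharZero K] [Algebra k K] {x : Kˣ} {m : ℕ} (hm : m.Prime) (hk : Module.finrank ℚ k < m)
    (hK : Module.finrank (IntermediateField.adjoin k {(x : K)}) K = m)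
    {O : ValuationSubring K} (hO : IsPl O)
    (hr : ∀ y ∈ O, ∃ c : k, O.valuation (y - algebraMap k K c) < 1) (hx : (x : K) ∉ O) {t : K}
    (ht : O.valuation (x * t ^ m) = 1)
    {r : ℕ} {f : Fin r → ℤ[X]} (h0 : OneZero (x : K) ∨ IndepAtZero f)
    (hmon : ∀ i, (f i).Monic) (hpos : ∀ i, 0 < (f i).natDegree)
    (hsq : Squarefree ((∏ i, f i).map (Int.castRingHom ℚ))) :
    ∃ C : ℕ, ∀ (p₁ p₂ : ℕ) [Fact p₁.Prime] [Fact p₂.Prime], p₁ ≠ p₂ → C < p₁ → C < p₂ →
      ¬ m ∣ p₁ * (p₁ - 1) → ¬ m ∣ p₂ * (p₂ - 1) →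
      ∀ c : ℚ, padicValRat p₁ c = 1 → padicValRat p₂ c = 1 →
        ((⨆ (v : Kˣ) (_ : ∃ i, (v : K) = aeval ((c : K) * x) (f i)), slice v) ⊔
          ratSlice x) ⊓ unramifiedK2 K = ⊥ := by
  have hcst : CstK k K := cst_of_point hO hr
  have hxt : Transcendental ℚ (x : K) := fun ha => hx (etvmn_mem hO ha)
  obtain ⟨w, E, hE, hEw, hgen⟩ := exists_equationK (k := k) hxt hm hK hO hx ht
  obtain ⟨B, hB⟩ := ram_large hm hE
  obtain ⟨D, hD⟩ := exists_prm hmon hpos hsq
  refine ⟨B + D, ?_⟩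
  intro p₁ p₂ _ _ h12 hp1 hp2 hm₁ hm₂ c hv1 hv2
  have hc0 : c ≠ 0 := by
    rintro rfl
    rw [padicValRat.zero] at hv1
    omega
  have hcK : (c : K) ≠ 0 := by exact_mod_cast hc0
  have hck : (c : k) ≠ 0 := by exact_mod_cast hc0
  have hm1 : ¬ m ∣ 1 := fun h => hm.one_lt.ne' (Nat.dvd_one.1 h)
  have hR1 := fun τ : k →+* PadicAlgCl p₁ => hB p₁ (by omega) τ 1 one_pos hm1 c⁻¹
    (etvmn_norm hc0 (by exact_mod_cast hv1))
  have hR2 := fun τ : k →+* PadicAlgCl p₂ => hB p₂ (by omega) τ 1 one_pos hm1 c⁻¹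
    (etvmn_norm hc0 (by exact_mod_cast hv2))
  obtain ⟨E', hE'⟩ : ∃ E', E' = E.map (compRingHom (C ((c⁻¹ : ℚ) : k) * X)) := ⟨_, rfl⟩
  rw [← hE'] at hR1 hR2
  have hX : Transcendental ℚ ((c : K) * x) := by
    intro ha
    apply hxt
    have h3 : (x : K) = (c : K)⁻¹ * ((c : K) * x) := by rw [inv_mul_cancel_left₀ hcK]
    rw [h3]
    refine IsAlgebraic.mul ?_ ha
    have h4 : ((c : K))⁻¹ = algebraMap ℚ K c⁻¹ := by rw [eq_ratCast, Rat.cast_inv]
    rw [h4]
    exact isAlgebraic_algebraMap _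
  have hXk : Transcendental k ((c : K) * x) := by
    have hk' : Algebra.IsAlgebraic ℚ k := Algebra.IsAlgebraic.of_finite ℚ k
    exact fun h => hX (h.restrictScalars ℚ)
  have hev : ev2K (algebraMap k K) ((c : K) * x) w E' = 0 := by
    rw [← hEw, hE']
    unfold ev2K
    rw [coe_eval₂RingHom, coe_eval₂RingHom, eval₂_map]
    congr 1
    ext q
    · simp
    · simp [hcK]
  have hfd1 : FiniteDimensional (IntermediateField.adjoin k {(x : K)}) K :=
    Module.finite_of_finrank_pos (by rw [hK]; exact hm.pos)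
  have hfd : FiniteDimensional (IntermediateField.adjoin ℚ {(x : K)}) K := finite_rat hfd1
  have hfd' : FiniteDimensional (IntermediateField.adjoin ℚ {(c : K) * x}) K :=
    finite_of_transcendental hfd hX
  have hgen' : IntermediateField.adjoin k {(c : K) * x, w} = ⊤ := by
    rw [eq_top_iff, ← hgen, IntermediateField.adjoin_le_iff]
    rintro y (rfl | rfl)
    · have h3 : (c : K)⁻¹ * ((c : K) * x) ∈ IntermediateField.adjoin k {(c : K) * x, w} :=
        mul_mem (inv_mem (SubfieldClass.ratCast_mem _ c))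
          (IntermediateField.subset_adjoin k _ (Or.inl rfl))
      rwa [inv_mul_cancel_left₀ hcK] at h3
    · exact IntermediateField.subset_adjoin k _ (Or.inr rfl)
  have hne : ∀ i, aeval ((c : K) * x) (f i) ≠ 0 := by
    intro i h0
    apply hX
    refine ⟨(f i).map (Int.castRingHom ℚ), ((hmon i).map _).ne_zero, ?_⟩
    rw [aeval_map, h0]
  have hX0 : (c : K) * x ≠ 0 := mul_ne_zero hcK x.ne_zero
  obtain ⟨X', hX'⟩ : ∃ X' : Kˣ, (X' : K) = (c : K) * x := ⟨Units.mk0 _ hX0, rfl⟩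
  -- the orders of `c x`
  have hval : ∀ O : ValuationSubring K, IsPl O → O.valuation ((c : K) * x) = O.valuation (x : K) :=
    fun O hO => by rw [map_mul, etvmn_rat hO hc0, one_mul]
  have hneg : vo O X' < 0 := by
    by_contra hcon
    push Not at hcon
    have h3 := (vo_nonneg_iff hO X').1 hcon
    rw [hX'] at h3
    have h4 := (O.valuation_le_one_iff _).2 h3
    rw [hval O hO] at h4
    exact hx ((O.valuation_le_one_iff _).1 h4)
  obtain ⟨e, he⟩ := Int.eq_ofNat_of_zero_le (show 0 ≤ -vo O X' by omega)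
  obtain ⟨u, hu⟩ : ∃ u : Fin r → Kˣ, ∀ i, (u i : K) = aeval ((c : K) * x) (f i) :=
    ⟨fun i => Units.mk0 _ (hne i), fun i => rfl⟩
  have hP1 := hD p₁ (by omega)
  have hP2 := hD p₂ (by omega)
  refine transport0 hc0 hX hu (zero_tupleK (k := k) hXk hcst hfd' hmon hu ?_ ?_ ?_)
  · rw [← hX'] at hXk hfd' hu ⊢
    exact lf_unr hXk hfd' (m := e) (by omega) hO hr (by omega) hmon hu
  · intro O₁ O₂ h1 h2 h3 h4
    refine pole_uniq hm hE hEw hgen h1 h2 (fun h5 => h3 ?_) (fun h5 => h4 ?_)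
    · rw [← O₁.valuation_le_one_iff, hval O₁ h1, O₁.valuation_le_one_iff]
      exact h5
    · rw [← O₂.valuation_le_one_iff, hval O₂ h2, O₂.valuation_le_one_iff]
      exact h5
  · intro P hP hP' hrel O₁ O₂ h1 h2 hv hv'
    by_cases hPX : P = X
    · subst hPX
      rcases h0 with h0 | h0
      · rw [aeval_X, hval O₁ h1] at hv
        rw [aeval_X, hval O₂ h2] at hv'
        exact h0 O₁ O₂ h1.1 h2.1 h1.2 h2.2 hv hv'
      · obtain ⟨h3, h4⟩ := ind_rel (k := k) h0
        rcases hrel with ⟨a, ha, hrel⟩ | ⟨j, hj⟩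
        · exact absurd hrel (h3 a ha)
        · exact absurd hj (h4 j)
    · exact uniq hX hm hk (by rw [hE']; exact hE.mon.map _)
        (by rw [hE', (hE.mon).natDegree_map, hE.deg]) hev hgen' h12 hm₁ hm₂ hR1 hR2 hP1 hP2
        hP hP' hPX hrel h1 h2 hv hv'

/-- the vanishing, with the definitions of the statement, for almost all `c` -/
theorem main_almost {k K : Type} [Field k] [CharZero k] [FiniteDimensional ℚ k] [Field K]
    [CharZero K] [Algebra k K] {x : Kˣ} {m : ℕ} (hm : m.Prime) (hk : Module.finrank ℚ k < m)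
    (hK : Module.finrank (IntermediateField.adjoin k {(x : K)}) K = m)
    {O : ValuationSubring K} (hO : IsPl O)
    (hr : ∀ y ∈ O, ∃ c : k, O.valuation (y - algebraMap k K c) < 1) (hx : (x : K) ∉ O) {t : K}
    (ht : O.valuation (x * t ^ m) = 1) (hm2 : 2 < m) (r : ℕ)
    (f : Fin r → ℤ[X]) (h0 : OneZero (x : K) ∨ IndepAtZero f) (hf : ∀ i, (f i).Monic ∧ 0 < (f i).natDegree)
    (hsq : Squarefree ((∏ i, f i).map (Int.castRingHom ℚ))) :
    AlmostAll fun c : ℤ => tupleSlices x (c : ℚ) f ⊓ unramifiedK2 K = ⊥ := by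
  obtain ⟨D, hD⟩ := main_zero hm hk hK hO hr hx ht h0 (fun i => (hf i).1)
    (fun i => (hf i).2) hsq
  refine (density (hm.odd_of_ne_two (by omega)) (D + m)).mono fun c h => ?_
  obtain ⟨p, q, hp, hq, hpq, hCp, hCq, hmp, hmq, hvp, hvq⟩ := h
  have := Fact.mk hp
  have := Fact.mk hq
  have hnd : ∀ l : ℕ, l.Prime → D + m < l → m.Coprime (l - 1) → ¬ m ∣ l * (l - 1) := by
    intro l hl h1 h2 h3
    rcases hm.dvd_mul.1 h3 with h4 | h4
    · rw [Nat.prime_dvd_prime_iff_eq hm hl] at h4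
      omega
    · exact hm.one_lt.ne' (Nat.Coprime.eq_one_of_dvd h2 h4)
  have h2 := hD p q hpq (by omega) (by omega) (hnd p hp hCp hmp) (hnd q hq hCq hmq) (c : ℚ)
    (by rw [padicValRat.of_int, hvp]; rfl) (by rw [padicValRat.of_int, hvq]; rfl)
  rw [← tupleSlices_eq] at h2
  exact h2

end Pool.Agent.ETV
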